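import Mathlib

set_option autoImplicit false

namespace Pool.Agent.Results.MP_9e9eb1_al.NoHEigenvalue

/-- A real tensor of order `k + 1` and dimension `n` is a function
`b : (Fin (k + 1) → Fin n) → ℝ`; it is symmetric if its entries are unchanged under every
permutation of the indices. -/
def IsSymmetric {k n : ℕ} (b : (Fin (k + 1) → Fin n) → ℝ) : Prop :=
  ∀ (σ : Equiv.Perm (Fin (k + 1))) (v : Fin (k + 1) → Fin n), b (v ∘ σ) = b v

/-- The sum `R i` of the entries of the `i`-th row. -/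
def rowSum {k n : ℕ} (b : (Fin (k + 1) → Fin n) → ℝ) (i : Fin n) : ℝ :=
  ∑ v : Fin k → Fin n, b (Fin.cons i v)

/-- `B_0` tensors: each row sum `R i` is nonnegative, and `R i / n ^ k` (`k + 1` is the order) is at
least as large as every off-diagonal entry of the `i`-th row. -/
def IsB0 {k n : ℕ} (b : (Fin (k + 1) → Fin n) → ℝ) : Prop :=
  ∀ i : Fin n, 0 ≤ rowSum b i ∧
    ∀ v : Fin k → Fin n, v ≠ (fun _ => i) → b (Fin.cons i v) ≤ rowSum b i / (n : ℝ) ^ k

/-- `l` is an H-eigenvalue: there is a nonzero real vector `x` with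
`∑ b_{i i_2 ... i_{k+1}} x_{i_2} ⋯ x_{i_{k+1}} = l x_i ^ k` for all `i`. -/
def IsHEigenvalue {k n : ℕ} (b : (Fin (k + 1) → Fin n) → ℝ) (l : ℝ) : Prop :=
  ∃ x : Fin n → ℝ, x ≠ 0 ∧
    ∀ i, ∑ v : Fin k → Fin n, b (Fin.cons i v) * ∏ j, x (v j) = l * x i ^ k

/-- The symmetric tensor of order 3 and dimension 2 with `b_111 = 3`, `b_112 = 1`, `b_122 = -1`,
`b_222 = 6`. -/
noncomputable def T (v : Fin (2 + 1) → Fin 2) : ℝ :=
  if ∑ j, (v j : ℕ) = 0 then 3 else if ∑ j, (v j : ℕ) = 1 then 1 else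
    if ∑ j, (v j : ℕ) = 2 then -1 else 6

theorem sum_two (f : (Fin 2 → Fin 2) → ℝ) :
    ∑ v, f v = f ![0, 0] + f ![0, 1] + (f ![1, 0] + f ![1, 1]) := by
  rw [← (finTwoArrowEquiv (Fin 2)).symm.sum_comp, Fintype.sum_prod_type]
  simp [Fin.sum_univ_two, finTwoArrowEquiv]

theorem T_vals : T (Fin.cons 0 ![0, 0]) = 3 ∧ T (Fin.cons 0 ![0, 1]) = 1 ∧
    T (Fin.cons 0 ![1, 0]) = 1 ∧ T (Fin.cons 0 ![1, 1]) = -1 ∧
    T (Fin.cons 1 ![0, 0]) = 1 ∧ T (Fin.cons 1 ![0, 1]) = -1 ∧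
    T (Fin.cons 1 ![1, 0]) = -1 ∧ T (Fin.cons 1 ![1, 1]) = 6 := by
  refine ⟨?_, ?_, ?_, ?_, ?_, ?_, ?_, ?_⟩ <;> simp [T, Fin.sum_univ_succ]

/-- There is a symmetric `B_0` tensor of odd order (order 3, dimension 2) which has no
H-eigenvalue. -/
theorem result : ∃ (k n : ℕ) (b : (Fin (k + 1) → Fin n) → ℝ), Odd (k + 1) ∧ 3 ≤ k + 1 ∧ 1 ≤ n ∧
    IsSymmetric b ∧ IsB0 b ∧ ∀ l : ℝ, ¬ IsHEigenvalue b l := by
  obtain ⟨h000, h001, h010, h011, h100, h101, h110, h111⟩ := T_vals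
  have hR0 : rowSum T 0 = 4 := by
    rw [rowSum, sum_two, h000, h001, h010, h011]; norm_num
  have hR1 : rowSum T 1 = 5 := by
    rw [rowSum, sum_two, h100, h101, h110, h111]; norm_num
  have hall : ∀ v : Fin 2 → Fin 2, v = ![0, 0] ∨ v = ![0, 1] ∨ v = ![1, 0] ∨ v = ![1, 1] := by
    decide
  refine ⟨2, 2, T, by decide, by norm_num, by norm_num, ?_, ?_, ?_⟩
  · intro σ v
    have : ∑ j, ((v ∘ σ) j : ℕ) = ∑ j, (v j : ℕ) := Equiv.sum_comp σ fun j => (v j : ℕ)
    simp only [T, this]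
  · intro i
    fin_cases i
    · refine ⟨by show 0 ≤ rowSum T 0; rw [hR0]; norm_num, ?_⟩
      intro v hv
      show T (Fin.cons 0 v) ≤ rowSum T 0 / _
      rw [hR0]
      rcases hall v with rfl | rfl | rfl | rfl
      · exact absurd (by ext j; fin_cases j <;> rfl) hv
      · rw [h001]; norm_num
      · rw [h010]; norm_num
      · rw [h011]; norm_num
    · refine ⟨by show 0 ≤ rowSum T 1; rw [hR1]; norm_num, ?_⟩
      intro v hv
      show T (Fin.cons 1 v) ≤ rowSum T 1 / _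
      rw [hR1]
      rcases hall v with rfl | rfl | rfl | rfl
      · rw [h100]; norm_num
      · rw [h101]; norm_num
      · rw [h110]; norm_num
      · exact absurd (by ext j; fin_cases j <;> rfl) hv
  · rintro l ⟨x, hx, he⟩
    have e0 := he 0
    have e1 := he 1
    rw [sum_two, h000, h001, h010, h011] at e0
    rw [sum_two, h100, h101, h110, h111] at e1
    simp [Fin.prod_univ_two] at e0 e1
    set a := x 0 with ha
    set c := x 1 with hc
    -- eliminate the eigenvalue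
    have h2 : (a ^ 2 - a * c + c ^ 2) ^ 2 = 0 := by
      have h3 : (3 * (a * a) + a * c + (c * a + -(c * c))) * c ^ 2 =
          (a * a + -(a * c) + (-(c * a) + 6 * (c * c))) * a ^ 2 := by
        rw [e0, e1]; ring
      nlinarith
    have h4 : a ^ 2 - a * c + c ^ 2 = 0 := by simpa using h2
    have h5 : c = 0 := by nlinarith [sq_nonneg (2 * a - c), sq_nonneg c]
    have h6 : a = 0 := by
      rw [h5] at h4
      simpa using h4
    apply hx
    ext i
    fin_cases i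
    · exact h6
    · exact h5

end Pool.Agent.Results.MP_9e9eb1_al.NoHEigenvalue
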