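import Mathlib

set_option autoImplicit false

namespace Pool.Agent.Results.MP_9e9eb1_al.NonnegativeHEigenvalues

/-- The sum `R i` of the entries of the `i`-th row of a real tensor
`b : (Fin (k + 1) → Fin n) → ℝ` of order `k + 1` and dimension `n`. -/
def rowSum {k n : ℕ} (b : (Fin (k + 1) → Fin n) → ℝ) (i : Fin n) : ℝ :=
  ∑ v : Fin k → Fin n, b (Fin.cons i v)

/-- `B_0` tensors: each row sum `R i` is nonnegative, and `R i / n ^ k` (`k + 1` is the order) is at
least as large as every off-diagonal entry of the `i`-th row. -/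
def IsB0 {k n : ℕ} (b : (Fin (k + 1) → Fin n) → ℝ) : Prop :=
  ∀ i : Fin n, 0 ≤ rowSum b i ∧
    ∀ v : Fin k → Fin n, v ≠ (fun _ => i) → b (Fin.cons i v) ≤ rowSum b i / (n : ℝ) ^ k

/-- `l` is an H-eigenvalue: there is a nonzero real vector `x` with
`∑ b_{i i_2 ... i_{k+1}} x_{i_2} ⋯ x_{i_{k+1}} = l x_i ^ k` for all `i`. -/
def IsHEigenvalue {k n : ℕ} (b : (Fin (k + 1) → Fin n) → ℝ) (l : ℝ) : Prop :=
  ∃ x : Fin n → ℝ, x ≠ 0 ∧
    ∀ i, ∑ v : Fin k → Fin n, b (Fin.cons i v) * ∏ j, x (v j) = l * x i ^ k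

/-- Every H-eigenvalue of a `B_0` tensor (symmetric or not) of odd order is nonnegative. -/
theorem result {k n : ℕ} (hk : Odd (k + 1)) (b : (Fin (k + 1) → Fin n) → ℝ) (hb : IsB0 b)
    (l : ℝ) (hl : IsHEigenvalue b l) : 0 ≤ l := by
  obtain ⟨x, hx, he⟩ := hl
  have hke : Even k := by
    rcases Nat.even_or_odd k with h | h
    · exact h
    · exact absurd (h.add_odd (by decide : Odd 1)) (Nat.not_even_iff_odd.mpr hk)
  have hne : (Finset.univ : Finset (Fin n)).Nonempty := by
    by_contra h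
    rw [Finset.not_nonempty_iff_eq_empty] at h
    apply hx
    ext i
    exact absurd (Finset.mem_univ i) (by rw [h]; simp)
  obtain ⟨i, -, hi⟩ := Finset.exists_max_image Finset.univ (fun j => |x j|) hne
  have hn : 0 < n := Fin.pos i
  have hxi : x i ≠ 0 := by
    intro h0
    apply hx
    ext j
    have := hi j (Finset.mem_univ j)
    rw [h0, abs_zero] at this
    exact abs_eq_zero.mp (le_antisymm this (abs_nonneg _))
  set M : ℝ := x i ^ k with hM
  have hMpos : 0 < M := hke.pow_pos hxi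
  set β : ℝ := rowSum b i / (n : ℝ) ^ k with hβ
  have hβ0 : 0 ≤ β := div_nonneg (hb i).1 (by positivity)
  have hbound : ∀ v : Fin k → Fin n, ∏ j, x (v j) ≤ M := by
    intro v
    calc ∏ j, x (v j) ≤ |∏ j, x (v j)| := le_abs_self _
      _ = ∏ j, |x (v j)| := Finset.abs_prod _ _
      _ ≤ ∏ _j : Fin k, |x i| :=
          Finset.prod_le_prod (fun _ _ => abs_nonneg _) fun j _ => hi _ (Finset.mem_univ _)
      _ = M := by rw [Finset.prod_const, Finset.card_univ, Fintype.card_fin, hM, hke.pow_abs]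
  have hterm : ∀ v : Fin k → Fin n,
      b (Fin.cons i v) * (M - ∏ j, x (v j)) ≤ β * (M - ∏ j, x (v j)) := by
    intro v
    by_cases hv : v = fun _ => i
    · have : ∏ j, x (v j) = M := by rw [hv]; simp [hM]
      rw [this]; simp
    · exact mul_le_mul_of_nonneg_right ((hb i).2 v hv) (by linarith [hbound v])
  have hsum := Finset.sum_le_sum fun v (_ : v ∈ (Finset.univ : Finset (Fin k → Fin n))) => hterm v
  have h1 : ∑ v : Fin k → Fin n, b (Fin.cons i v) * (M - ∏ j, x (v j)) =
      rowSum b i * M - l * M := by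
    simp only [mul_sub, Finset.sum_sub_distrib]
    rw [he i, ← Finset.sum_mul]; rfl
  have h2 : ∑ v : Fin k → Fin n, β * (M - ∏ j, x (v j)) =
      rowSum b i * M - β * (∑ j, x j) ^ k := by
    rw [← Finset.mul_sum, Finset.sum_sub_distrib, ← Fintype.sum_pow]
    simp only [Finset.sum_const, Finset.card_univ, Fintype.card_fun, Fintype.card_fin,
      nsmul_eq_mul, Nat.cast_pow]
    have : β * ((n : ℝ) ^ k) = rowSum b i := by
      rw [hβ]; field_simp
    linear_combination M * this
  rw [h1, h2] at hsum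
  have h3 : 0 ≤ β * (∑ j, x j) ^ k := mul_nonneg hβ0 (hke.pow_nonneg _)
  have h4 : 0 ≤ l * M := by linarith
  exact nonneg_of_mul_nonneg_left h4 hMpos

end Pool.Agent.Results.MP_9e9eb1_al.NonnegativeHEigenvalues
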